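import Pool.Agent.N319.LE.Stm

/-!
# NSP/LE/TTN: regularity in time of the bilinear term (helper645)
-/

open MeasureTheory Set Filter Topology
open scoped ContDiff

namespace Pool.Agent.N645.LE

open Pool.Agent.H356R3.NS
open Pool.Agent.N319.LE (Fq Rp nn Nop S_TTN)

/-! ### summability -/

lemma summ_one : Summable fun n : ℤ => ((1 + |(n : ℝ)|) ^ 2)⁻¹ := by
  have h1 : Summable fun n : ℕ => ((1 + (n : ℝ)) ^ 2)⁻¹ := by
    have h2 := (summable_nat_add_iff 1).2 (Real.summable_nat_pow_inv.2 (show 1 < 2 by norm_num))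
    refine h2.congr fun n => ?_
    push_cast
    rw [add_comm]
  apply Summable.of_nat_of_neg
  · simpa using h1
  · simpa using h1

lemma summ_pw : Summable fun k : K => (pw k ^ 6)⁻¹ := by
  have h := summ_one
  have hn : (0 : ℤ → ℝ) ≤ fun n : ℤ => ((1 + |(n : ℝ)|) ^ 2)⁻¹ := fun n => by
    simp only [Pi.zero_apply]; positivity
  have h2 := h.mul_of_nonneg h hn hn
  have h3 := h.mul_of_nonneg h2 hn (fun p => by
    simp only [Pi.zero_apply]; positivity)
  rw [← eqv.symm.summable_iff]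
  refine h3.of_nonneg_of_le (fun p => ?_) fun p => ?_
  · rw [Function.comp_apply]
    have := pw_pos (eqv.symm p)
    positivity
  · have e : eqv.symm p = ![p.1, p.2.1, p.2.2] := rfl
    rw [Function.comp_apply, e]
    simp only [pw, l1, Fin.sum_univ_three, Matrix.cons_val_zero, Matrix.cons_val_one,
      Matrix.cons_val]
    have ha := abs_nonneg (p.1 : ℝ)
    have hb := abs_nonneg (p.2.1 : ℝ)
    have hc := abs_nonneg (p.2.2 : ℝ)
    rw [← mul_inv, ← mul_inv]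
    apply inv_anti₀ (by positivity)
    obtain ⟨s, hs⟩ : ∃ s : ℝ, s = 1 + (|(p.1 : ℝ)| + |(p.2.1 : ℝ)| + |(p.2.2 : ℝ)|) := ⟨_, rfl⟩
    rw [← hs]
    have h1 : (1 + |(p.1 : ℝ)|) ^ 2 ≤ s ^ 2 := pow_le_pow_left₀ (by positivity) (by linarith) 2
    have h4 : (1 + |(p.2.1 : ℝ)|) ^ 2 ≤ s ^ 2 := pow_le_pow_left₀ (by positivity) (by linarith) 2
    have h5 : (1 + |(p.2.2 : ℝ)|) ^ 2 ≤ s ^ 2 := pow_le_pow_left₀ (by positivity) (by linarith) 2
    calc (1 + |(p.1 : ℝ)|) ^ 2 * ((1 + |(p.2.1 : ℝ)|) ^ 2 * (1 + |(p.2.2 : ℝ)|) ^ 2)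
        ≤ s ^ 2 * (s ^ 2 * s ^ 2) := by gcongr
      _ = s ^ 6 := by ring

/-! ### rapidly decreasing families of vectors -/

/-- vector families -/
def RV (u : Fam) : Prop := ∀ m : ℕ, ∃ b : K → ℝ, (∀ k, 0 ≤ b k) ∧ Summable b ∧
  ∀ k t, pw k ^ m * ‖u k t‖ ≤ b k

lemma rv_of {u : Fam} (h : ∀ i, RD (cf' u i)) : RV u := by
  intro m
  choose b hb hb' using fun i => h i m
  have hp : ∀ k, 0 < pw k ^ m := fun k => pow_pos (pw_pos k) m
  have h0 : ∀ i k, 0 ≤ b i k := fun i k => (mul_nonneg (hp k).le (norm_nonneg _)).trans (hb' i k 0)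
  refine ⟨fun k => ∑ i, b i k, fun k => Finset.sum_nonneg fun i _ => h0 i k,
    summable_sum fun i _ => hb i, fun k t => ?_⟩
  have h1 : ‖u k t‖ ≤ ∑ i, ‖u k t i‖ := by
    rw [pi_norm_le_iff_of_nonneg (Finset.sum_nonneg fun i _ => norm_nonneg _)]
    intro i
    exact Finset.single_le_sum (f := fun i => ‖u k t i‖) (fun i _ => norm_nonneg _)
      (Finset.mem_univ i)
  calc pw k ^ m * ‖u k t‖ ≤ pw k ^ m * ∑ i, ‖u k t i‖ := mul_le_mul_of_nonneg_left h1 (hp k).le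
    _ = ∑ i, pw k ^ m * ‖u k t i‖ := Finset.mul_sum _ _ _
    _ ≤ _ := Finset.sum_le_sum fun i _ => hb' i k t

lemma rp_of_bd {x : Fq → C3} (h : ∀ m : ℕ, ∃ b : K → ℝ, (∀ k, 0 ≤ b k) ∧ Summable b ∧
    ∀ k, pw k ^ m * ‖x k‖ ≤ b k) : Rp x := by
  intro m
  obtain ⟨b, h0, hs, hb⟩ := h m
  exact ⟨∑' k, b k, fun k => (hb k).trans (hs.le_tsum k fun j _ => h0 j)⟩

lemma RV.rp {u : Fam} (h : RV u) (s : ℝ) : Rp (at' u s) := by
  refine rp_of_bd fun m => ?_
  obtain ⟨b, h0, hs, hb⟩ := h m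
  exact ⟨b, h0, hs, fun k => hb k s⟩

lemma rp_add {x y : Fq → C3} (hx : Rp x) (hy : Rp y) : Rp (x + y) := by
  intro m
  obtain ⟨C, hC⟩ := hx m
  obtain ⟨D, hD⟩ := hy m
  refine ⟨C + D, fun k => ?_⟩
  have hp : 0 ≤ pw k ^ m := (pow_pos (pw_pos k) m).le
  calc pw k ^ m * ‖(x + y) k‖ ≤ pw k ^ m * (‖x k‖ + ‖y k‖) :=
        mul_le_mul_of_nonneg_left (norm_add_le _ _) hp
    _ ≤ _ := by rw [mul_add]; exact add_le_add (hC k) (hD k)

lemma rp_smul {x : Fq → C3} (r : ℝ) (hx : Rp x) : Rp (r • x) := by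
  intro m
  obtain ⟨C, hC⟩ := hx m
  refine ⟨|r| * C, fun k => ?_⟩
  have h1 : ‖(r • x) k‖ = |r| * ‖x k‖ := by
    rw [Pi.smul_apply, norm_smul, Real.norm_eq_abs]
  rw [h1]
  calc pw k ^ m * (|r| * ‖x k‖) = |r| * (pw k ^ m * ‖x k‖) := by ring
    _ ≤ _ := mul_le_mul_of_nonneg_left (hC k) (abs_nonneg _)

lemma rp_sub {x y : Fq → C3} (hx : Rp x) (hy : Rp y) : Rp (x - y) := by
  have h := rp_add hx (rp_smul (-1) hy)
  have e : x + (-1 : ℝ) • y = x - y := by rw [neg_one_smul, sub_eq_add_neg]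
  rwa [e] at h

/-- bounds for the weighted norms -/
lemma nn_le {x : Fq → C3} {b : K → ℝ} {m : ℕ} (h0 : ∀ k, 0 ≤ b k) (hs : Summable b)
    (hb : ∀ k, pw k ^ m * ‖x k‖ ≤ b k) : nn m x ≤ (∑' k, b k) ^ 2 := by
  have hp : ∀ k, 0 ≤ pw k ^ m * ‖x k‖ := fun k =>
    mul_nonneg (pow_pos (pw_pos k) m).le (norm_nonneg _)
  have h1 : ∀ k, (pw k ^ m * ‖x k‖) ^ 2 ≤ (∑' k, b k) * b k := by
    intro k
    have h2 : b k ≤ ∑' k, b k := hs.le_tsum k fun j _ => h0 j
    calc (pw k ^ m * ‖x k‖) ^ 2 ≤ b k ^ 2 := pow_le_pow_left₀ (hp k) (hb k) 2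
      _ = b k * b k := _root_.sq _
      _ ≤ _ := mul_le_mul_of_nonneg_right h2 (h0 k)
  have h3 : Summable fun k => (∑' k, b k) * b k := hs.mul_left _
  have h4 : Summable fun k => (pw k ^ m * ‖x k‖) ^ 2 :=
    h3.of_nonneg_of_le (fun k => sq_nonneg _) h1
  unfold nn
  refine (h4.tsum_le_tsum h1 h3).trans (le_of_eq ?_)
  rw [tsum_mul_left, _root_.sq]

lemma nn_nonneg (m : ℕ) (x : Fq → C3) : 0 ≤ nn m x := tsum_nonneg fun _ => sq_nonneg _

lemma RV.nn_bd {u : Fam} (h : RV u) (m : ℕ) : ∃ B : ℝ, 0 ≤ B ∧ ∀ s, nn m (at' u s) ≤ B := by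
  obtain ⟨b, h0, hs, hb⟩ := h m
  exact ⟨(∑' k, b k) ^ 2, sq_nonneg _, fun s => nn_le h0 hs fun k => hb k s⟩

/-! ### decay of the bilinear term -/

variable {N : (Fq → C3) → (Fq → C3) → Fq → C3}

lemma rd_N (hN : Nop N) {u v : Fam} (hu : RV u) (hv : RV v) (i : Fin 3) :
    RD (fun k s => N (at' u s) (at' v s) k i) := by
  intro m
  obtain ⟨C, hC, hest⟩ := hN.est (m + 2)
  obtain ⟨B₁, hB₁, h₁⟩ := hu.nn_bd (3 * (m + 2 + 1))
  obtain ⟨B₂, hB₂, h₂⟩ := hv.nn_bd 3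
  obtain ⟨B₃, hB₃, h₃⟩ := hu.nn_bd 3
  obtain ⟨B₄, hB₄, h₄⟩ := hv.nn_bd (3 * (m + 2 + 1))
  obtain ⟨A, hA⟩ : ∃ A : ℝ, A = C * (B₁ * B₂ + B₃ * B₄) := ⟨_, rfl⟩
  have hA0 : 0 ≤ A := by rw [hA]; positivity
  refine ⟨fun k => √A * (pw k ^ 6)⁻¹, summ_pw.mul_left _, fun k s => ?_⟩
  have hp := pw_pos k
  have hp1 := one_le_pw k
  have h5 := hest (at' u s) (at' v s) (hu.rp s) (hv.rp s) {k}
  rw [Finset.sum_singleton] at h5
  have h6 : C * (nn (3 * (m + 2 + 1)) (at' u s) * nn 3 (at' v s) +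
      nn 3 (at' u s) * nn (3 * (m + 2 + 1)) (at' v s)) ≤ A := by
    rw [hA]
    apply mul_le_mul_of_nonneg_left _ hC
    exact add_le_add (mul_le_mul (h₁ s) (h₂ s) (nn_nonneg _ _) hB₁)
      (mul_le_mul (h₃ s) (h₄ s) (nn_nonneg _ _) hB₃)
  have h7 := h5.trans h6
  have hk0 := nk_nonneg k
  rw [div_le_iff₀ (by positivity)] at h7
  have h8 : 1 + nk k ^ 2 ≤ pw k ^ 2 := by
    have h9 := nk_le_l1 k
    have h10 : 0 ≤ l1 k := hk0.trans h9
    unfold pw
    nlinarith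
  have h9 : (pw k ^ (3 * (m + 2 + 1)) * ‖N (at' u s) (at' v s) k‖) ^ 2 ≤ (√A * pw k) ^ 2 := by
    rw [mul_pow √A, Real.sq_sqrt hA0]
    exact h7.trans (mul_le_mul_of_nonneg_left h8 hA0)
  have h10 : pw k ^ (3 * (m + 2 + 1)) * ‖N (at' u s) (at' v s) k‖ ≤ √A * pw k :=
    (sq_le_sq₀ (by positivity) (by positivity)).1 h9
  have h11 : pw k ^ m * ‖N (at' u s) (at' v s) k i‖ ≤ pw k ^ m * ‖N (at' u s) (at' v s) k‖ :=
    mul_le_mul_of_nonneg_left (norm_le_pi_norm _ i) (by positivity)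
  refine h11.trans ?_
  show pw k ^ m * ‖N (at' u s) (at' v s) k‖ ≤ √A * (pw k ^ 6)⁻¹
  rw [← div_eq_mul_inv, le_div_iff₀ (by positivity)]
  have h12 : pw k ^ m * ‖N (at' u s) (at' v s) k‖ * pw k ^ 6 * pw k ≤
      pw k ^ (3 * (m + 2 + 1)) * ‖N (at' u s) (at' v s) k‖ := by
    have h13 : pw k ^ m * ‖N (at' u s) (at' v s) k‖ * pw k ^ 6 * pw k =
        pw k ^ (m + 7) * ‖N (at' u s) (at' v s) k‖ := by
      rw [show m + 7 = m + 6 + 1 by ring, pow_add, pow_add]; ring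
    rw [h13]
    apply mul_le_mul_of_nonneg_right _ (norm_nonneg _)
    exact pow_le_pow_right₀ hp1 (by omega)
  exact le_of_mul_le_mul_right (h12.trans h10) hp

/-! ### limits -/

lemma nn_tendsto {α : Type} {l : Filter α} {w : α → Fq → C3} {b : K → ℝ}
    (h0 : ∀ k, 0 ≤ b k) (hs : Summable b) (hb : ∀ᶠ a in l, ∀ k, ‖w a k‖ ≤ b k)
    (hw : ∀ k, Tendsto (fun a => w a k) l (𝓝 0)) : Tendsto (fun a => nn 0 (w a)) l (𝓝 0) := by
  have h1 : Summable fun k => (∑' k, b k) * b k := hs.mul_left _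
  have h2 := tendsto_tsum_of_dominated_convergence (𝓕 := l)
    (f := fun a k => (pw k ^ 0 * ‖w a k‖) ^ 2) (g := fun _ => (0 : ℝ)) h1 (fun k => ?_) ?_
  · rw [tsum_zero] at h2
    exact h2
  · have h3 := ((hw k).norm.const_mul (pw k ^ 0)).pow 2
    simpa using h3
  · filter_upwards [hb] with a ha k
    have h3 : b k ≤ ∑' k, b k := hs.le_tsum k fun j _ => h0 j
    rw [pow_zero, one_mul, Real.norm_of_nonneg (sq_nonneg _)]
    calc ‖w a k‖ ^ 2 ≤ b k ^ 2 := pow_le_pow_left₀ (norm_nonneg _) (ha k) 2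
      _ = b k * b k := _root_.sq _
      _ ≤ _ := mul_le_mul_of_nonneg_right h3 (h0 k)

lemma N_tendsto_left (hN : Nop N) {α : Type} {l : Filter α} {x y : α → Fq → C3} {B : ℝ}
    (hx : ∀ᶠ a in l, Rp (x a)) (hy : ∀ᶠ a in l, Rp (y a))
    (hxt : Tendsto (fun a => nn 0 (x a)) l (𝓝 0)) (hyb : ∀ᶠ a in l, nn 0 (y a) ≤ B) (k : Fq) :
    Tendsto (fun a => N (x a) (y a) k) l (𝓝 0) := by
  obtain ⟨C, hC, hloc⟩ := hN.loc k
  have h1 : Tendsto (fun a => C * √(nn 0 (x a)) * √B) l (𝓝 0) := by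
    have h2 := (hxt.sqrt.const_mul C).mul_const √B
    simpa using h2
  refine squeeze_zero_norm' ?_ h1
  filter_upwards [hx, hy, hyb] with a h2 h3 h4
  refine (hloc _ _ h2 h3).trans ?_
  apply mul_le_mul_of_nonneg_left (Real.sqrt_le_sqrt h4) (by positivity)

lemma N_tendsto_right (hN : Nop N) {α : Type} {l : Filter α} {x y : α → Fq → C3} {B : ℝ}
    (hx : ∀ᶠ a in l, Rp (x a)) (hy : ∀ᶠ a in l, Rp (y a))
    (hyt : Tendsto (fun a => nn 0 (y a)) l (𝓝 0)) (hxb : ∀ᶠ a in l, nn 0 (x a) ≤ B) (k : Fq) :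
    Tendsto (fun a => N (x a) (y a) k) l (𝓝 0) := by
  obtain ⟨C, hC, hloc⟩ := hN.loc k
  have h1 : Tendsto (fun a => C * √B * √(nn 0 (y a))) l (𝓝 0) := by
    have h2 := hyt.sqrt.const_mul (C * √B)
    simpa using h2
  refine squeeze_zero_norm' ?_ h1
  filter_upwards [hx, hy, hxb] with a h2 h3 h4
  refine (hloc _ _ h2 h3).trans ?_
  apply mul_le_mul_of_nonneg_right _ (Real.sqrt_nonneg _)
  exact mul_le_mul_of_nonneg_left (Real.sqrt_le_sqrt h4) hC

lemma N_sub_left (hN : Nop N) {x x' y : Fq → C3} (hx : Rp x) (hx' : Rp x') (hy : Rp y) :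
    N (x - x') y = N x y - N x' y := by
  have h := hN.add_left (x - x') x' y (rp_sub hx hx') hx' hy
  rw [sub_add_cancel] at h
  rw [h, add_sub_cancel_right]

lemma N_sub_right (hN : Nop N) {x y y' : Fq → C3} (hx : Rp x) (hy : Rp y) (hy' : Rp y') :
    N x (y - y') = N x y - N x y' := by
  have h := hN.add_right x (y - y') y' hx (rp_sub hy hy') hy'
  rw [sub_add_cancel] at h
  rw [h, add_sub_cancel_right]

/-- the difference of the values of a continuous family tends to zero -/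
lemma diff_tendsto {u : Fam} (hu : RV u) (hc : ∀ k, Continuous (u k)) (t : ℝ) :
    Tendsto (fun s => nn 0 (at' u s - at' u t)) (𝓝 t) (𝓝 0) := by
  obtain ⟨b, h0, hs, hb⟩ := hu 0
  refine nn_tendsto (b := fun k => b k + b k) (fun k => add_nonneg (h0 k) (h0 k)) (hs.add hs)
    (Eventually.of_forall fun s k => ?_) fun k => ?_
  · have h1 := hb k s
    have h2 := hb k t
    rw [pow_zero, one_mul] at h1 h2
    exact (norm_sub_le _ _).trans (add_le_add h1 h2)
  · have h1 : Tendsto (fun s => u k s - u k t) (𝓝 t) (𝓝 (u k t - u k t)) :=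
      ((hc k).tendsto t).sub_const _
    rw [sub_self] at h1
    exact h1

lemma cont_N (hN : Nop N) {u v : Fam} (hu : RV u) (hv : RV v) (hcu : ∀ k, Continuous (u k))
    (hcv : ∀ k, Continuous (v k)) (k : Fq) : Continuous fun s => N (at' u s) (at' v s) k := by
  rw [continuous_iff_continuousAt]
  intro t
  obtain ⟨B, -, hB⟩ := hv.nn_bd 0
  obtain ⟨B', -, hB'⟩ := hu.nn_bd 0
  have h1 := N_tendsto_left hN (l := 𝓝 t) (x := fun s => at' u s - at' u t)
    (y := fun s => at' v s) (B := B) (Eventually.of_forall fun s => rp_sub (hu.rp s) (hu.rp t))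
    (Eventually.of_forall fun s => hv.rp s) (diff_tendsto hu hcu t)
    (Eventually.of_forall fun s => hB s) k
  have h2 := N_tendsto_right hN (l := 𝓝 t) (x := fun _ => at' u t)
    (y := fun s => at' v s - at' v t) (B := B') (Eventually.of_forall fun _ => hu.rp t)
    (Eventually.of_forall fun s => rp_sub (hv.rp s) (hv.rp t)) (diff_tendsto hv hcv t)
    (Eventually.of_forall fun _ => hB' t) k
  have h3 := (h1.add h2).add_const (N (at' u t) (at' v t) k)
  rw [add_zero, zero_add] at h3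
  refine h3.congr fun s => ?_
  rw [N_sub_left hN (hu.rp s) (hu.rp t) (hv.rp s), N_sub_right hN (hu.rp t) (hv.rp s) (hv.rp t)]
  simp only [Pi.sub_apply]
  abel

/-- the difference quotients tend to the derivative -/
lemma quot_tendsto {u u' : Fam} (hu' : RV u')
    (hd : ∀ k t, 0 < t → HasDerivAt (u k) (u' k t) t) {t : ℝ} (ht : 0 < t) :
    Tendsto (fun s => nn 0 ((s - t)⁻¹ • (at' u s - at' u t) - at' u' t)) (𝓝[≠] t) (𝓝 0) := by
  obtain ⟨b, h0, hs, hb⟩ := hu' 0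
  refine nn_tendsto (b := fun k => b k + b k) (fun k => add_nonneg (h0 k) (h0 k)) (hs.add hs)
    ?_ fun k => ?_
  · have h1 : ∀ᶠ s in 𝓝[≠] t, 0 < s := mem_nhdsWithin_of_mem_nhds (lt_mem_nhds ht)
    filter_upwards [h1, self_mem_nhdsWithin] with s hs0 hst k
    have h2 := hb k t
    rw [pow_zero, one_mul] at h2
    refine (norm_sub_le _ _).trans (add_le_add ?_ h2)
    have h3 : ‖u k s - u k t‖ ≤ b k * ‖s - t‖ :=
      (convex_Ioi (0 : ℝ)).norm_image_sub_le_of_norm_hasDerivWithin_le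
        (fun x hx => (hd k x hx).hasDerivWithinAt) (fun x _ => by
          have := hb k x
          rwa [pow_zero, one_mul] at this) ht hs0
    have h4 : s - t ≠ 0 := sub_ne_zero.2 hst
    show ‖(s - t)⁻¹ • (u k s - u k t)‖ ≤ b k
    rw [norm_smul, norm_inv, inv_mul_le_iff₀ (norm_pos_iff.2 h4), mul_comm]
    exact h3
  · have h1 := (hasDerivAt_iff_tendsto_slope.1 (hd k t ht)).sub_const (u' k t)
    rw [sub_self] at h1
    refine h1.congr fun s => ?_
    show slope (u k) t s - u' k t = (s - t)⁻¹ • (u k s - u k t) - u' k t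
    rw [slope_def_module]

lemma deriv_N (hN : Nop N) {u v u' v' : Fam} (hu : RV u) (hv : RV v) (hu' : RV u') (hv' : RV v')
    (hcv : ∀ k, Continuous (v k))
    (hdu : ∀ k t, 0 < t → HasDerivAt (u k) (u' k t) t)
    (hdv : ∀ k t, 0 < t → HasDerivAt (v k) (v' k t) t) (k : Fq) {t : ℝ} (ht : 0 < t) :
    HasDerivAt (fun s => N (at' u s) (at' v s) k)
      (N (at' u' t) (at' v t) k + N (at' u t) (at' v' t) k) t := by
  obtain ⟨B, -, hB⟩ := hv.nn_bd 0
  obtain ⟨B', -, hB'⟩ := hu.nn_bd 0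
  obtain ⟨B'', -, hB''⟩ := hu'.nn_bd 0
  have hq : ∀ (w w' : Fam), RV w → RV w' → ∀ s, Rp ((s - t)⁻¹ • (at' w s - at' w t) - at' w' t) :=
    fun w w' hw hw' s => rp_sub (rp_smul _ (rp_sub (hw.rp s) (hw.rp t))) (hw'.rp t)
  have h1 := N_tendsto_left hN (l := 𝓝[≠] t)
    (x := fun s => (s - t)⁻¹ • (at' u s - at' u t) - at' u' t)
    (y := fun s => at' v s) (B := B) (Eventually.of_forall fun s => hq u u' hu hu' s)
    (Eventually.of_forall fun s => hv.rp s) (quot_tendsto hu' hdu ht)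
    (Eventually.of_forall fun s => hB s) k
  have h2 := N_tendsto_right hN (l := 𝓝[≠] t) (x := fun _ => at' u' t)
    (y := fun s => at' v s - at' v t) (B := B'') (Eventually.of_forall fun _ => hu'.rp t)
    (Eventually.of_forall fun s => rp_sub (hv.rp s) (hv.rp t))
    ((diff_tendsto hv hcv t).mono_left nhdsWithin_le_nhds)
    (Eventually.of_forall fun _ => hB'' t) k
  have h3 := N_tendsto_right hN (l := 𝓝[≠] t) (x := fun _ => at' u t)
    (y := fun s => (s - t)⁻¹ • (at' v s - at' v t) - at' v' t) (B := B')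
    (Eventually.of_forall fun _ => hu.rp t)
    (Eventually.of_forall fun s => hq v v' hv hv' s) (quot_tendsto hv' hdv ht)
    (Eventually.of_forall fun _ => hB' t) k
  rw [hasDerivAt_iff_tendsto_slope]
  have h4 := ((h1.add h2).add h3).add_const (N (at' u' t) (at' v t) k + N (at' u t) (at' v' t) k)
  rw [add_zero, add_zero, zero_add] at h4
  refine h4.congr fun s => ?_
  rw [slope_def_module]
  have r1 := hu.rp s
  have r2 := hu.rp t
  have r3 := hv.rp s
  have r4 := hv.rp t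
  rw [N_sub_left hN (rp_smul _ (rp_sub r1 r2)) (hu'.rp t) r3, hN.smul_left _ _ _ (rp_sub r1 r2) r3,
    N_sub_left hN r1 r2 r3, N_sub_right hN (hu'.rp t) r3 r4,
    N_sub_right hN r2 (rp_smul _ (rp_sub r3 r4)) (hv'.rp t), hN.smul_right _ _ _ r2 (rp_sub r3 r4),
    N_sub_right hN r2 r3 r4]
  simp only [Pi.sub_apply, Pi.smul_apply, smul_sub]
  abel

theorem ttn : S_TTN := by
  intro N hN n
  induction n with
  | zero =>
    intro u v hu hv i
    have ru := rv_of fun i => (hu i).1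
    have rv := rv_of fun i => (hv i).1
    refine ⟨rd_N hN ru rv i, fun k => ?_⟩
    exact (continuous_apply i).comp (cont_N hN ru rv (fun k => continuous_pi fun i => (hu i).2 k)
      (fun k => continuous_pi fun i => (hv i).2 k) k)
  | succ n ih =>
    intro u v hu hv i
    have ru := rv_of fun i => (hu i).rd
    have rv := rv_of fun i => (hv i).rd
    have cu : ∀ k, Continuous (u k) := fun k => continuous_pi fun i => (hu i).ct k
    have cv : ∀ k, Continuous (v k) := fun k => continuous_pi fun i => (hv i).ct k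
    have hu0 : ∀ i, TT n (cf' u i) := fun i => (hu i).pred
    have hv0 : ∀ i, TT n (cf' v i) := fun i => (hv i).pred
    choose cu' hdu hTu using fun i => (hu i).2.2
    choose cv' hdv hTv using fun i => (hv i).2.2
    obtain ⟨u', hu'⟩ : ∃ u' : Fam, u' = fun k t i => cu' i k t := ⟨_, rfl⟩
    obtain ⟨v', hv'⟩ : ∃ v' : Fam, v' = fun k t i => cv' i k t := ⟨_, rfl⟩
    have hTu' : ∀ i, TT n (cf' u' i) := fun i => by rw [hu']; exact hTu i
    have hTv' : ∀ i, TT n (cf' v' i) := fun i => by rw [hv']; exact hTv i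
    have ru' := rv_of fun i => (hTu' i).rd
    have rv' := rv_of fun i => (hTv' i).rd
    have du : ∀ k t, 0 < t → HasDerivAt (u k) (u' k t) t := by
      intro k t ht
      rw [hasDerivAt_pi]
      intro i
      rw [hu']
      exact hdu i k t ht
    have dv : ∀ k t, 0 < t → HasDerivAt (v k) (v' k t) t := by
      intro k t ht
      rw [hasDerivAt_pi]
      intro i
      rw [hv']
      exact hdv i k t ht
    refine ⟨rd_N hN ru rv i, fun k => (continuous_apply i).comp (cont_N hN ru rv cu cv k),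
      fun k s => N (at' u' s) (at' v s) k i + N (at' u s) (at' v' s) k i, ?_,
      (ih u' v hTu' hv0 i).add (ih u v' hu0 hTv' i)⟩
    intro k t ht
    exact (hasDerivAt_pi.1 (deriv_N hN ru rv ru' rv' cv du dv k ht)) i

end Pool.Agent.N645.LE
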